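import Mathlib

/-!
# Cube packings: the core estimate
-/

set_option autoImplicit false

open Set Metric MeasureTheory Topology Filter
open scoped ENNReal NNReal

namespace Pool.Agent.Q160.Cube

/-- A set of measure zero for a Hausdorff measure is covered by balls of small radii. -/
theorem cover_of_null {X : Type*} [MetricSpace X] [Nonempty X] [MeasurableSpace X] [BorelSpace X]
    {s : ℝ} (hs : 0 < s) {G : Set X} (hG : μH[s] G = 0) {ε r₀ : ℝ} (hε : 0 < ε) (hr₀ : 0 < r₀) :
    ∃ (z : ℕ → X) (ρ : ℕ → ℝ), (∀ i, 0 < ρ i) ∧ (∀ i, ρ i ≤ r₀) ∧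
      G ⊆ ⋃ i, closedBall (z i) (ρ i) ∧ ∑' i, ENNReal.ofReal (ρ i ^ s) ≤ ENNReal.ofReal ε := by
  have h1 := Measure.hausdorffMeasure_apply (X := X) s G
  rw [hG] at h1
  have h2 : (⨅ (t : ℕ → Set X) (_ : G ⊆ ⋃ n, t n) (_ : ∀ n, ediam (t n) ≤ ENNReal.ofReal r₀),
      ∑' n, ⨆ _ : (t n).Nonempty, ediam (t n) ^ s) ≤ 0 := by
    rw [h1]
    exact le_iSup₂_of_le (ENNReal.ofReal r₀) (ENNReal.ofReal_pos.2 hr₀) le_rfl
  have h3 : (⨅ (t : ℕ → Set X) (_ : G ⊆ ⋃ n, t n) (_ : ∀ n, ediam (t n) ≤ ENNReal.ofReal r₀),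
      ∑' n, ⨆ _ : (t n).Nonempty, ediam (t n) ^ s) < ENNReal.ofReal (ε / 2) :=
    lt_of_le_of_lt h2 (ENNReal.ofReal_pos.2 (by positivity))
  simp only [iInf_lt_iff] at h3
  obtain ⟨t, htG, htd, hts⟩ := h3
  have hη : ∀ n : ℕ, ∃ η : ℝ, 0 < η ∧ η ≤ r₀ ∧ η ^ s ≤ ε / 2 * (1 / 2) ^ (n + 1) := by
    intro n
    refine ⟨min r₀ ((ε / 2 * (1 / 2) ^ (n + 1)) ^ (1 / s)), by positivity, min_le_left _ _, ?_⟩
    calc (min r₀ ((ε / 2 * (1 / 2) ^ (n + 1)) ^ (1 / s))) ^ s
        ≤ ((ε / 2 * (1 / 2) ^ (n + 1)) ^ (1 / s)) ^ s := by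
          apply Real.rpow_le_rpow (by positivity) (min_le_right _ _) hs.le
      _ = ε / 2 * (1 / 2) ^ (n + 1) := by
          rw [← Real.rpow_mul (by positivity), one_div_mul_cancel hs.ne', Real.rpow_one]
  choose η hη0 hηr hηs using hη
  have hz : ∀ n, ∃ z : X, (t n).Nonempty → z ∈ t n := by
    intro n
    by_cases h : (t n).Nonempty
    · exact ⟨h.some, fun _ => h.some_mem⟩
    · exact ⟨Classical.arbitrary X, fun h' => absurd h' h⟩
  choose z hz using hz
  have hfin : ∀ n, ediam (t n) ≠ ∞ := fun n => ne_top_of_le_ne_top ENNReal.ofReal_ne_top (htd n)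
  refine ⟨z, fun n => max (ediam (t n)).toReal (η n), fun n => lt_max_of_lt_right (hη0 n),
    fun n => max_le ?_ (hηr n), ?_, ?_⟩
  · exact ENNReal.toReal_le_of_le_ofReal hr₀.le (htd n)
  · intro x hx
    obtain ⟨n, hn⟩ := mem_iUnion.1 (htG hx)
    refine mem_iUnion.2 ⟨n, ?_⟩
    rw [mem_closedBall]
    refine le_trans ?_ (le_max_left _ _)
    have h4 : edist x (z n) ≤ ediam (t n) := edist_le_ediam_of_mem hn (hz n ⟨x, hn⟩)
    rw [edist_dist] at h4
    exact (ENNReal.ofReal_le_iff_le_toReal (hfin n)).1 h4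
  · have h5 : ∀ n, ENNReal.ofReal ((max (ediam (t n)).toReal (η n)) ^ s) ≤
        (⨆ _ : (t n).Nonempty, ediam (t n) ^ s) + ENNReal.ofReal (ε / 2 * (1 / 2) ^ (n + 1)) := by
      intro n
      rcases le_total (ediam (t n)).toReal (η n) with h | h
      · rw [max_eq_right h]
        exact le_add_left (ENNReal.ofReal_le_ofReal (hηs n))
      · rw [max_eq_left h]
        by_cases hne : (t n).Nonempty
        · refine le_add_right ?_
          rw [iSup_pos hne, ← ENNReal.ofReal_rpow_of_nonneg ENNReal.toReal_nonneg hs.le,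
            ENNReal.ofReal_toReal (hfin n)]
        · exfalso
          rw [Set.not_nonempty_iff_eq_empty] at hne
          rw [hne] at h
          simp at h
          exact absurd (hη0 n) (not_lt.2 h)
    calc ∑' n, ENNReal.ofReal ((max (ediam (t n)).toReal (η n)) ^ s)
        ≤ ∑' n, ((⨆ _ : (t n).Nonempty, ediam (t n) ^ s) +
            ENNReal.ofReal (ε / 2 * (1 / 2) ^ (n + 1))) := ENNReal.tsum_le_tsum h5
      _ = (∑' n, ⨆ _ : (t n).Nonempty, ediam (t n) ^ s) +
            ∑' n : ℕ, ENNReal.ofReal (ε / 2 * (1 / 2) ^ (n + 1)) := ENNReal.tsum_add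
      _ ≤ ENNReal.ofReal (ε / 2) + ENNReal.ofReal (ε / 2) := by
          refine add_le_add hts.le ?_
          rw [← ENNReal.ofReal_tsum_of_nonneg (fun n => by positivity)]
          · apply ENNReal.ofReal_le_ofReal
            rw [tsum_mul_left]
            have : ∑' n : ℕ, ((1:ℝ) / 2) ^ (n + 1) = 1 := by
              simp_rw [pow_succ]
              rw [tsum_mul_right, tsum_geometric_two]
              norm_num
            rw [this, mul_one]
          · apply Summable.mul_left
            exact (summable_nat_add_iff 1).2 summable_geometric_two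
      _ = ENNReal.ofReal ε := by
          rw [← ENNReal.ofReal_add (by positivity) (by positivity)]; congr 1; ring

variable {m : ℕ}

/-- The core: a set in `ℝ × ℝ^m` with small coverings contains few pairs of parallel cubes. -/
theorem core {G : Set (ℝ × (Fin m → ℝ))} {T : Set ℝ} {c : Fin m → ℝ}
    (hGT : ∀ t ∈ T, ∃ a : ℝ, (∀ x ∈ Icc c (fun i => c i + 1 / 4), (a, x) ∈ G) ∧
      ∀ x ∈ Icc c (fun i => c i + 1 / 4), (a + t, x) ∈ G)
    {s b : ℝ} (hs : 0 < s) (hsb : s + b ≤ 2 * m + 1) (hG : μH[s] G = 0)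
    {κ r₀ : ℝ} (hκ : 0 ≤ κ) (hr₀ : 0 < r₀)
    (hB : ∀ r : ℝ, 0 < r → r < r₀ → volume (thickening r G) ≤ ENNReal.ofReal (κ * r ^ (m + 1 - b))) :
    volume T = 0 := by
  set C : Set (Fin m → ℝ) := Icc c (fun i => c i + 1 / 4) with hC
  set A : Set ℝ := {a | ∀ x ∈ C, (a, x) ∈ G} with hA
  have hCvol : volume C = ENNReal.ofReal ((1 / 4) ^ m) := by
    rw [hC, Real.volume_Icc_pi]
    simp only [add_sub_cancel_left, Finset.prod_const, Finset.card_univ, Fintype.card_fin]
    rw [ENNReal.ofReal_pow (by norm_num)]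
  have hCm : MeasurableSet C := measurableSet_Icc
  -- the thickening of A
  have hthick : ∀ r : ℝ, volume (thickening r A) * volume C ≤ volume (thickening r G) := by
    intro r
    rw [← Measure.prod_prod]
    apply measure_mono
    rintro ⟨a', x⟩ ⟨ha', hx⟩
    simp only at ha' hx
    obtain ⟨a, haA, had⟩ := mem_thickening_iff.1 ha'
    refine mem_thickening_iff.2 ⟨(a, x), haA x hx, ?_⟩
    rw [Prod.dist_eq, dist_self]
    exact max_lt had (lt_of_le_of_lt dist_nonneg had)
  -- main estimate
  have key : ∀ ε : ℝ, 0 < ε → volume T * volume C * volume C ≤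
      ENNReal.ofReal (2 ^ s * κ * (2 ^ m) * ε) := by
    intro ε hε
    obtain ⟨z, ρ, hρ0, hρr, hcov, hsum⟩ := cover_of_null hs hG hε
      (show 0 < min (r₀ / 4) (1 / 2) by positivity)
    set B : ℕ → ℝ≥0∞ := fun i => volume (thickening (2 * ρ i) A) with hBdef
    have hpt : ∀ x ∈ C, volume T ≤
        ∑' i, (closedBall (z i).2 (ρ i)).indicator (fun _ => B i) x := by
      intro x hx
      have hsub : T ⊆ ⋃ i, {t : ℝ | x ∈ closedBall (z i).2 (ρ i) ∧
          t + (z i).1 ∈ thickening (2 * ρ i) A} := by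
        intro t ht
        obtain ⟨a, ha1, ha2⟩ := hGT t ht
        obtain ⟨i, hi⟩ := mem_iUnion.1 (hcov (ha1 x hx))
        rw [mem_closedBall, Prod.dist_eq, max_le_iff] at hi
        refine mem_iUnion.2 ⟨i, hi.2, ?_⟩
        refine mem_thickening_iff.2 ⟨a + t, ha2, ?_⟩
        have h1 : dist a (z i).1 ≤ ρ i := hi.1
        rw [Real.dist_eq] at h1 ⊢
        have h2 : t + (z i).1 - (a + t) = -(a - (z i).1) := by ring
        rw [h2, abs_neg]
        have := hρ0 i
        linarith
      refine (measure_mono hsub).trans ((measure_iUnion_le _).trans (ENNReal.tsum_le_tsum fun i => ?_))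
      by_cases hxi : x ∈ closedBall (z i).2 (ρ i)
      · rw [indicator_of_mem hxi]
        have h3 : {t : ℝ | x ∈ closedBall (z i).2 (ρ i) ∧ t + (z i).1 ∈ thickening (2 * ρ i) A} ⊆
            (fun t => t + (z i).1) ⁻¹' (thickening (2 * ρ i) A) := fun t ht => ht.2
        refine (measure_mono h3).trans ?_
        rw [measure_preimage_add_right]
      · rw [indicator_of_notMem hxi]
        have h3 : {t : ℝ | x ∈ closedBall (z i).2 (ρ i) ∧ t + (z i).1 ∈ thickening (2 * ρ i) A} = ∅ := by
          ext t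
          simp [hxi]
        rw [h3, measure_empty]
    have hint : volume T * volume C ≤ ∑' i, volume (closedBall (z i).2 (ρ i)) * B i := by
      calc volume T * volume C = ∫⁻ _x in C, volume T := by rw [setLIntegral_const]
        _ ≤ ∫⁻ x in C, ∑' i, (closedBall (z i).2 (ρ i)).indicator (fun _ => B i) x :=
            setLIntegral_mono' hCm hpt
        _ ≤ ∫⁻ x, ∑' i, (closedBall (z i).2 (ρ i)).indicator (fun _ => B i) x :=
            setLIntegral_le_lintegral _ _
        _ = ∑' i, ∫⁻ x, (closedBall (z i).2 (ρ i)).indicator (fun _ => B i) x := by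
            rw [lintegral_tsum]
            intro i
            exact (measurable_const.indicator isClosed_closedBall.measurableSet).aemeasurable
        _ = ∑' i, volume (closedBall (z i).2 (ρ i)) * B i := by
            congr 1
            ext i
            rw [lintegral_indicator isClosed_closedBall.measurableSet, setLIntegral_const, mul_comm]
    calc volume T * volume C * volume C
        ≤ (∑' i, volume (closedBall (z i).2 (ρ i)) * B i) * volume C := by gcongr
      _ = ∑' i, volume (closedBall (z i).2 (ρ i)) * B i * volume C := ENNReal.tsum_mul_right.symm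
      _ ≤ ∑' i, ENNReal.ofReal (2 ^ s * κ * 2 ^ m) * ENNReal.ofReal (ρ i ^ s) := by
          apply ENNReal.tsum_le_tsum
          intro i
          have hρ := hρ0 i
          have hρ2 := hρr i
          have h4 : volume (closedBall (z i).2 (ρ i)) = ENNReal.ofReal ((2 * ρ i) ^ m) := by
            rw [Real.volume_pi_closedBall _ hρ.le]
            simp
          have h5 : B i * volume C ≤ ENNReal.ofReal (κ * (2 * ρ i) ^ (m + 1 - b)) := by
            refine (hthick (2 * ρ i)).trans (hB (2 * ρ i) (by linarith) ?_)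
            have := hρ2.trans (min_le_left _ _)
            linarith
          rw [mul_assoc, h4]
          refine (mul_le_mul_right h5 _).trans ?_
          rw [← ENNReal.ofReal_mul (by positivity), ← ENNReal.ofReal_mul (by positivity)]
          apply ENNReal.ofReal_le_ofReal
          have h6 : (2 * ρ i) ^ m * (κ * (2 * ρ i) ^ ((m:ℝ) + 1 - b)) =
              κ * (2 * ρ i) ^ ((m:ℝ) + (m + 1 - b)) := by
            rw [Real.rpow_add (by linarith), Real.rpow_natCast]; ring
          rw [h6]
          have h7 : (2 * ρ i) ^ ((m:ℝ) + (m + 1 - b)) ≤ (2 * ρ i) ^ s := by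
            apply Real.rpow_le_rpow_of_exponent_ge (by linarith)
            · have := hρ2.trans (min_le_right _ _)
              linarith
            · linarith
          calc κ * (2 * ρ i) ^ ((m:ℝ) + (m + 1 - b)) ≤ κ * (2 * ρ i) ^ s := by gcongr
            _ = 2 ^ s * κ * 1 * ρ i ^ s := by
                rw [Real.mul_rpow (by norm_num) hρ.le]; ring
            _ ≤ 2 ^ s * κ * 2 ^ m * ρ i ^ s := by
                gcongr
                exact one_le_pow₀ (by norm_num)
      _ = ENNReal.ofReal (2 ^ s * κ * 2 ^ m) * ∑' i, ENNReal.ofReal (ρ i ^ s) :=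
          ENNReal.tsum_mul_left
      _ ≤ ENNReal.ofReal (2 ^ s * κ * 2 ^ m) * ENNReal.ofReal ε := by gcongr
      _ = ENNReal.ofReal (2 ^ s * κ * (2 ^ m) * ε) := by
          rw [← ENNReal.ofReal_mul (by positivity)]
  have hzero : volume T * volume C * volume C ≤ 0 := by
    have hlim : Tendsto (fun ε : ℝ => ENNReal.ofReal (2 ^ s * κ * (2 ^ m) * ε)) (𝓝[>] 0)
        (𝓝 (ENNReal.ofReal (2 ^ s * κ * (2 ^ m) * 0))) := by
      apply ENNReal.tendsto_ofReal
      apply Tendsto.mono_left _ nhdsWithin_le_nhds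
      exact (continuous_const.mul continuous_id).tendsto 0
    rw [mul_zero, ENNReal.ofReal_zero] at hlim
    refine ge_of_tendsto hlim ?_
    filter_upwards [self_mem_nhdsWithin] with ε hε
    exact key ε hε
  have hC0 : volume C ≠ 0 := by
    rw [hCvol]
    exact (ENNReal.ofReal_pos.2 (by positivity)).ne'
  rcases mul_eq_zero.1 (nonpos_iff_eq_zero.1 hzero) with h | h
  · rcases mul_eq_zero.1 h with h | h
    · exact h
    · exact absurd h hC0
  · exact absurd h hC0

end Pool.Agent.Q160.Cube
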